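import Pool.Agent.Helper50.UK.Sd

/-!
The partner of an exit: the last crossing before it.
-/

set_option autoImplicit false

namespace Pool.Agent.Helper47.UK

section Abstract

variable {X : Type*} (N : X → X) (C : Set X)

/-- `p` is the last element of `C` before `q`. -/
def Prev (p q : X) : Prop :=
  p ∈ C ∧ ∃ l : ℕ, 0 < l ∧ N^[l] p = q ∧ ∀ l', 0 < l' → l' < l → N^[l'] p ∉ C

variable {N C}

lemma prev_inj_left (hN : Function.Injective N) {p p' q : X} (h : Prev N C p q)
    (h' : Prev N C p' q) : p = p' := by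
  obtain ⟨hp, l, hl, e, h1⟩ := h
  obtain ⟨hp', l', hl', e', h1'⟩ := h'
  wlog hle : l ≤ l' generalizing p p' l l'
  · exact (this hp' l' hl' e' h1' hp l hl e h1 (by omega)).symm
  have h2 : N^[l' - l] p' = p := by
    apply hN.iterate l
    rw [← Function.iterate_add_apply, e, show l + (l' - l) = l' by omega, e']
  rcases Nat.eq_zero_or_pos (l' - l) with h3 | h3
  · rw [h3] at h2
    exact h2.symm
  · exact absurd (by rw [h2]; exact hp) (h1' (l' - l) h3 (by omega))

lemma prev_inj_right {p q q' : X} (hq : q ∈ C) (hq' : q' ∈ C) (h : Prev N C p q)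
    (h' : Prev N C p q') : q = q' := by
  obtain ⟨-, l, hl, e, h1⟩ := h
  obtain ⟨-, l', hl', e', h1'⟩ := h'
  rcases lt_trichotomy l l' with h2 | h2 | h2
  · exact absurd (by rw [e]; exact hq) (h1' l hl h2)
  · rw [← e, ← e', h2]
  · exact absurd (by rw [e']; exact hq') (h1 l' hl' h2)

lemma exists_period [Finite X] (hN : Function.Injective N) (q : X) : ∃ p, 0 < p ∧ N^[p] q = q := by
  obtain ⟨p, hp, h⟩ := hN.mem_periodicPts q
  exact ⟨p, hp, h⟩

lemma exists_prev [Finite X] (hN : Function.Injective N) {q : X} (hq : q ∈ C) :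
    ∃ p, Prev N C p q := by
  classical
  obtain ⟨p, hp, e⟩ := exists_period hN q
  have hex : ∃ l, 0 < l ∧ l ≤ p ∧ N^[p - l] q ∈ C :=
    ⟨p, hp, le_rfl, by rw [Nat.sub_self]; exact hq⟩
  obtain ⟨h1, h2, h3⟩ := Nat.find_spec hex
  refine ⟨N^[p - Nat.find hex] q, h3, Nat.find hex, h1, ?_, ?_⟩
  · rw [← Function.iterate_add_apply, show Nat.find hex + (p - Nat.find hex) = p by omega, e]
  · intro l' hl' hlt hmem
    have h4 := Nat.find_min hex (m := Nat.find hex - l') (by omega)
    apply h4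
    refine ⟨by omega, by omega, ?_⟩
    rw [← Function.iterate_add_apply,
      show l' + (p - Nat.find hex) = p - (Nat.find hex - l') by omega] at hmem
    exact hmem

lemma exists_next [Finite X] (hN : Function.Injective N) {p : X} (hp : p ∈ C) :
    ∃ q ∈ C, Prev N C p q := by
  classical
  obtain ⟨k, hk, e⟩ := exists_period hN p
  have hex : ∃ l, 0 < l ∧ N^[l] p ∈ C := ⟨k, hk, by rw [e]; exact hp⟩
  obtain ⟨h1, h2⟩ := Nat.find_spec hex
  exact ⟨_, h2, hp, Nat.find hex, h1, rfl, fun l' hl' hlt hmem =>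
    Nat.find_min hex hlt ⟨hl', hmem⟩⟩

lemma prev_flip {B : Set X} (hB : ∀ e ∈ B, N e ∈ B) (hCB : C ⊆ B) {g : X → Bool}
    (h1 : ∀ e ∈ B, N e ∉ C → g (N e) = g e) (h2 : ∀ e ∈ B, N e ∈ C → g (N e) = !g e) {p q : X}
    (hq : q ∈ C) (h : Prev N C p q) : g q = !g p := by
  obtain ⟨hp, l, hl, e, h3⟩ := h
  have hmem : ∀ i, N^[i] p ∈ B := by
    intro i
    induction i with
    | zero => exact hCB hp
    | succ i ih => rw [Function.iterate_succ_apply']; exact hB _ ih
  have key : ∀ i, i < l → g (N^[i] p) = g p := by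
    intro i
    induction i with
    | zero => exact fun _ => rfl
    | succ i ih =>
      intro hi
      have h4 := h3 (i + 1) (by omega) hi
      rw [Function.iterate_succ_apply'] at h4 ⊢
      rw [h1 _ (hmem i) h4]
      exact ih (by omega)
  obtain ⟨i, rfl⟩ : ∃ i, l = i + 1 := ⟨l - 1, by omega⟩
  rw [Function.iterate_succ_apply'] at e
  rw [← e, h2 _ (hmem i) (by rw [e]; exact hq), key i (by omega)]

/-- The abstract form. -/
theorem exists_partner_abstract [Finite X] (hN : Function.Injective N) {B : Set X}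
    (hB : ∀ e ∈ B, N e ∈ B) (hCB : C ⊆ B) {g : X → Bool}
    (h1 : ∀ e ∈ B, N e ∉ C → g (N e) = g e) (h2 : ∀ e ∈ B, N e ∈ C → g (N e) = !g e) :
    ∃ ent : X → X, Set.BijOn ent {q | q ∈ C ∧ g q = false} {q | q ∈ C ∧ g q = true} ∧
      ∀ (q : X) (l : ℕ), q ∈ C → g q = true → 0 < l → N^[l] q ∈ C →
        (∀ l', 0 < l' → l' < l → N^[l'] q ∉ C) → ent (N^[l] q) = q := by
  classical
  have hex : ∀ q : X, ∃ p, q ∈ C → Prev N C p q := by
    intro q
    by_cases hq : q ∈ C
    · obtain ⟨p, hp⟩ := exists_prev hN hq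
      exact ⟨p, fun _ => hp⟩
    · exact ⟨q, fun h => absurd h hq⟩
  choose ent hent using hex
  refine ⟨ent, ⟨?_, ?_, ?_⟩, ?_⟩
  · rintro q ⟨hq, hg⟩
    have h3 := hent q hq
    refine ⟨h3.1, ?_⟩
    have h4 := prev_flip hB hCB h1 h2 hq h3
    rw [hg] at h4
    cases h5 : g (ent q)
    · rw [h5] at h4
      exact absurd h4 (by decide)
    · rfl
  · rintro q ⟨hq, -⟩ q' ⟨hq', -⟩ he
    have h3 := hent q hq
    have h4 := hent q' hq'
    rw [he] at h3
    exact prev_inj_right hq hq' h3 h4
  · rintro p ⟨hp, hg⟩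
    obtain ⟨q, hq, h3⟩ := exists_next hN hp
    have h4 := prev_flip hB hCB h1 h2 hq h3
    rw [hg] at h4
    exact ⟨q, ⟨hq, h4⟩, prev_inj_left hN (hent q hq) h3⟩
  · intro q l hq hg hl hmem h3
    exact prev_inj_left hN (hent _ hmem) ⟨hq, l, hl, rfl, h3⟩

end Abstract

end Pool.Agent.Helper47.UK

namespace Pool.Agent.Helper50.UK.Code

open Pool.Agent.Helper47.UK

variable {n : ℕ}

theorem nxt_injective {S : Code n} {V : Set (ZMod (2 * n))} (hV : S.MC V) :
    Function.Injective (S.nxt V) := by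
  intro a b h
  by_cases ha : a + 1 ∈ V
  · by_cases hb : b + 1 ∈ V
    · rw [S.nxt_pos ha, S.nxt_pos hb] at h
      exact add_right_cancel (S.mate_inj h)
    · rw [S.nxt_pos ha, S.nxt_neg hb] at h
      exact absurd (by rw [← h]; exact (hV _).2 ha) hb
  · by_cases hb : b + 1 ∈ V
    · rw [S.nxt_neg ha, S.nxt_pos hb] at h
      exact absurd (by rw [h]; exact (hV _).2 hb) ha
    · rw [S.nxt_neg ha, S.nxt_neg hb] at h
      exact add_right_cancel h

/-- **Partners.** Along the loop `be` the crossings with `al` enter and leave the side `true` of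
`al` alternately; `ent` maps an exit to the preceding entrance. -/
theorem exists_partner [NeZero n] {S : Code n} {V al be : Set (ZMod (2 * n))} {y : ZMod (2 * n)}
    {f : ZMod (2 * n) × Bool → Bool} (hV : S.MC V) (hal : S.Closed V al)
    (hbe : S.IsLoop V be y) (hd : Disjoint al be) (hf : S.IsSide al f)
    (_hfy : f (y, true) = false) :
    ∃ ent : ZMod (2 * n) → ZMod (2 * n),
      Set.BijOn ent {q | q ∈ S.Crs V al be ∧ f (q, true) = false}
        {q | q ∈ S.Crs V al be ∧ f (q, true) = true} ∧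
      ∀ (q : ZMod (2 * n)) (l : ℕ), q ∈ S.Crs V al be → f (q, true) = true → 0 < l →
        (S.nxt V)^[l] q ∈ S.Crs V al be →
        (∀ l', 0 < l' → l' < l → (S.nxt V)^[l'] q ∉ S.Crs V al be) →
        ent ((S.nxt V)^[l] q) = q := by
  have hne : NeZero (2 * n) := ⟨by have := NeZero.ne n; omega⟩
  have hnot : ∀ e ∈ be, e ∉ al := fun e h1 h2 => Set.disjoint_left.1 hd h2 h1
  refine exists_partner_abstract (N := S.nxt V) (C := S.Crs V al be) (B := be)
    (g := fun e => f (e, true)) (nxt_injective hV) (fun e he => (hbe.closed e).2 he)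
    (fun q hq => hq.1) ?_ ?_
  · intro e he hn
    have hm : S.nxt V e ∈ be := (hbe.closed e).2 he
    by_cases hs : e + 1 ∈ V
    · rw [S.nxt_pos hs] at hm hn ⊢
      have h := hf.turn' (q := e + 1) (by rw [add_sub_cancel_right]; exact hnot e he)
        (hnot _ hm) true true
      rwa [add_sub_cancel_right] at h
    · rw [S.nxt_neg hs] at hm hn ⊢
      have hs' : S.mate (e + 1) ∉ V := fun h => hs ((hV _).1 h)
      have h1 : S.mate (e + 1) ∉ al := fun h => hn ⟨hm, hs, h⟩
      have h2 : S.mate (e + 1) - 1 ∉ al := fun h => h1 ((hal.straight hs').2 h)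
      have h := hf.straight h1 h2 true
      rwa [add_sub_cancel_right] at h
  · intro e he hn
    have hm : S.nxt V e ∈ be := (hbe.closed e).2 he
    have hs : e + 1 ∉ V := by
      intro hs
      rw [S.nxt_pos hs] at hn
      exact hn.2.1 ((hV _).2 hs)
    rw [S.nxt_neg hs] at hm hn ⊢
    have h1 : f (e, true) = f (S.mate (e + 1), S.toLeft (e + 1)) := by
      have h := hf.before (q := e + 1) (by rw [add_sub_cancel_right]; exact hnot e he) true
      rwa [add_sub_cancel_right] at h
    have h2 : f (e + 1, true) = f (S.mate (e + 1), !S.toLeft (e + 1)) :=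
      hf.after (hnot _ hm) true
    have h3 := hf.not_of_mem hn.2.2 (!S.toLeft (e + 1))
    rw [Bool.not_not] at h3
    rw [h1, h2, h3]

end Pool.Agent.Helper50.UK.Code
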